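import Pool.Agent.TH463.UP.Point
import Pool.Agent.TH463.FF.Sing

/-!
Light coverings by cylinders: for measures carried by a set of Hausdorff dimension zero, and for the
singular parts of `×p`, `×q`-invariant measures.
-/

set_option autoImplicit false

open Finset Filter Topology MeasureTheory
open scoped ENNReal

namespace Pool.Agent.TH463.UP

open Pool.Agent.H769R3 (X rep rep_nonneg rep_lt_one coe_rep rep_coe)

/-- light coverings by cylinders in base `p` -/
def Cov (p : ℕ) (ν : Measure X) : Prop :=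
  ∀ θ : ℝ, 0 < θ → θ < 1 → ∀ ε : ℝ, 0 < ε → ∃ C : Finset (ℕ × ℕ),
    (∀ c ∈ C, 1 ≤ c.1 ∧ c.2 < p ^ c.1) ∧ ∑ c ∈ C, θ ^ c.1 ≤ 1 / 2 ∧ ν.real (Un p C)ᶜ ≤ ε

open Classical in
/-- the cylinders meeting a ball -/
noncomputable def cyls (p : ℕ) (b : X × ℕ) : Finset (ℕ × ℕ) :=
  {b.2} ×ˢ (range (p ^ b.2)).filter fun s =>
    ∃ x ∈ Metric.closedBall b.1 (1 / (p : ℝ) ^ b.2), D p b.2 x = s

lemma card_cyls {p : ℕ} (hp : 2 ≤ p) (b : X × ℕ) : (cyls p b).card ≤ 4 := by
  classical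
  unfold cyls
  rw [card_product, card_singleton, one_mul]
  have h := cnt_near hp b.2 1 (Metric.closedBall b.1 (1 / (p : ℝ) ^ b.2)) {b.1} (by
    intro x hx
    refine ⟨b.1, mem_singleton_self _, ?_⟩
    rw [Metric.mem_closedBall, dist_eq_norm] at hx
    simpa using hx)
  rw [card_singleton] at h
  unfold cnt at h
  simpa using h

/-- from balls to cylinders -/
lemma of_balls {p : ℕ} (hp : 2 ≤ p) {θ : ℝ} (hθ : 0 < θ) (B : Finset (X × ℕ))
    (hB : ∀ b ∈ B, 1 ≤ b.2)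
    (hS : ∑ b ∈ B, θ ^ b.2 ≤ 1 / 8) : ∃ C : Finset (ℕ × ℕ),
    (∀ c ∈ C, 1 ≤ c.1 ∧ c.2 < p ^ c.1) ∧ ∑ c ∈ C, θ ^ c.1 ≤ 1 / 2 ∧
      ⋃ b ∈ B, Metric.closedBall b.1 (1 / (p : ℝ) ^ b.2) ⊆ Un p C := by
  classical
  refine ⟨B.biUnion (cyls p), ?_, ?_, ?_⟩
  · intro c hc
    obtain ⟨b, hb, hcb⟩ := mem_biUnion.1 hc
    unfold cyls at hcb
    rw [mem_product, mem_singleton, mem_filter, mem_range] at hcb
    obtain ⟨h1, h2, -⟩ := hcb
    rw [h1]
    exact ⟨hB b hb, h2⟩
  · have h1 : ∑ c ∈ B.biUnion (cyls p), θ ^ c.1 ≤ ∑ b ∈ B, ∑ c ∈ cyls p b, θ ^ c.1 := by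
      have h2 : ∀ s : Finset (X × ℕ), ∑ c ∈ s.biUnion (cyls p), θ ^ c.1 ≤
          ∑ b ∈ s, ∑ c ∈ cyls p b, θ ^ c.1 := by
        intro s
        induction s using Finset.induction_on with
        | empty => simp
        | insert b s hb ih =>
          rw [biUnion_insert, sum_insert hb]
          have h3 := sum_union_inter (s₁ := cyls p b) (s₂ := s.biUnion (cyls p))
            (f := fun c => θ ^ c.1)
          have h4 : 0 ≤ ∑ c ∈ cyls p b ∩ s.biUnion (cyls p), θ ^ c.1 :=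
            sum_nonneg fun c _ => by positivity
          linarith
      exact h2 B
    have h2 : ∀ b ∈ B, ∑ c ∈ cyls p b, θ ^ c.1 ≤ 4 * θ ^ b.2 := by
      intro b _
      have h3 : ∀ c ∈ cyls p b, θ ^ c.1 = θ ^ b.2 := by
        intro c hc
        unfold cyls at hc
        rw [mem_product, mem_singleton] at hc
        rw [hc.1]
      rw [sum_congr rfl h3, sum_const, nsmul_eq_mul]
      have h4 : ((cyls p b).card : ℝ) ≤ 4 := by exact_mod_cast card_cyls hp b
      exact mul_le_mul_of_nonneg_right h4 (by positivity)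
    refine h1.trans ((sum_le_sum h2).trans ?_)
    rw [← mul_sum]
    linarith
  · intro x hx
    simp only [Set.mem_iUnion] at hx
    obtain ⟨b, hb, hx⟩ := hx
    refine ⟨(b.2, D p b.2 x), mem_biUnion.2 ⟨b, hb, ?_⟩, rfl⟩
    unfold cyls
    rw [mem_product, mem_singleton, mem_filter, mem_range]
    exact ⟨rfl, D_lt hp _ _, x, hx, rfl⟩

/-- the choice of the level -/
lemma level {p : ℕ} (hp : 2 ≤ p) {θ κ : ℝ} (hκ : 0 < κ) (hθ : θ = (1 / (p : ℝ)) ^ κ) {d e : ℝ}
    (hd0 : 0 ≤ d) (hd1 : d ≤ 1 / (2 * p)) (he : 0 < e) :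
    ∃ N : ℕ, 1 ≤ N ∧ d ≤ 1 / (p : ℝ) ^ N ∧ θ ^ N ≤ (1 / θ) * d ^ κ + e := by
  have hpR : (2 : ℝ) ≤ p := by exact_mod_cast hp
  have hp0 : (0 : ℝ) < p := by linarith
  have hp1 : (1 : ℝ) / p < 1 := by
    rw [div_lt_one hp0]; linarith
  have hp2 : (0 : ℝ) < 1 / p := by positivity
  have hθ0 : 0 < θ := by rw [hθ]; positivity
  set s : ℝ := min (1 / (2 * p)) ((θ * e) ^ (1 / κ)) with hs
  have hs0 : 0 < s := by positivity
  have hs1 : s ^ κ ≤ θ * e := by
    have h1 : s ≤ (θ * e) ^ (1 / κ) := min_le_right _ _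
    have h2 := Real.rpow_le_rpow hs0.le h1 hκ.le
    rwa [← Real.rpow_mul (by positivity), one_div_mul_cancel hκ.ne', Real.rpow_one] at h2
  set y : ℝ := max d s with hy
  have hy0 : 0 < y := lt_of_lt_of_le hs0 (le_max_right _ _)
  have hy1 : y ≤ 1 / (2 * p) := max_le hd1 (min_le_left _ _)
  have hy2 : y < 1 / p := by
    refine hy1.trans_lt ?_
    apply one_div_lt_one_div_of_lt hp0
    linarith
  obtain ⟨N, hN1, hN2⟩ := exists_nat_pow_near_of_lt_one hy0 (by linarith : y ≤ 1) hp2 hp1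
  refine ⟨N, ?_, ?_, ?_⟩
  · by_contra hcon
    have hN0 : N = 0 := by omega
    rw [hN0] at hN1
    norm_num at hN1
    rw [one_div] at hy2
    linarith
  · have h1 : d ≤ (1 / (p : ℝ)) ^ N := (le_max_left _ _).trans hN2
    rwa [one_div_pow] at h1
  · have h1 : θ ^ (N + 1) ≤ y ^ κ := by
      have h2 : θ ^ (N + 1) = ((1 / (p : ℝ)) ^ (N + 1)) ^ κ := by
        rw [hθ, ← Real.rpow_natCast, ← Real.rpow_natCast, ← Real.rpow_mul (by positivity),
          ← Real.rpow_mul (by positivity), mul_comm]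
      rw [h2]
      exact Real.rpow_le_rpow (by positivity) hN1.le hκ.le
    have h3 : y ^ κ ≤ d ^ κ + θ * e := by
      rcases le_total d s with h | h
      · have h4 : y = s := max_eq_right h
        rw [h4]
        have : 0 ≤ d ^ κ := Real.rpow_nonneg hd0 _
        linarith
      · have h4 : y = d := max_eq_left h
        rw [h4]
        have : 0 ≤ θ * e := by positivity
        linarith
    have h4 : θ ^ N = (1 / θ) * θ ^ (N + 1) := by
      rw [pow_succ]
      field_simp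
    rw [h4]
    calc 1 / θ * θ ^ (N + 1) ≤ 1 / θ * (d ^ κ + θ * e) :=
          mul_le_mul_of_nonneg_left (h1.trans h3) (by positivity)
      _ = 1 / θ * d ^ κ + e := by field_simp

/-- measures carried by a set of Hausdorff dimension zero -/
theorem cov_of_dimH {p : ℕ} (hp : 2 ≤ p) {ν : Measure X} [IsFiniteMeasure ν] {E : Set X}
    (hE : dimH E = 0) (hν : ν Eᶜ = 0) : Cov p ν := by
  classical
  intro θ hθ0 hθ1 ε hε
  have hpR : (2 : ℝ) ≤ p := by exact_mod_cast hp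
  have hp0 : (0 : ℝ) < p := by linarith
  have hp1 : (1 : ℝ) / p < 1 := by
    rw [div_lt_one hp0]; linarith
  have hp2 : (0 : ℝ) < 1 / p := by positivity
  -- the exponent
  obtain ⟨κ, hκ, hθκ⟩ : ∃ κ : ℝ, 0 < κ ∧ θ = (1 / (p : ℝ)) ^ κ := by
    refine ⟨Real.logb (1 / p) θ, ?_, ?_⟩
    · exact Real.logb_pos_of_base_lt_one hp2 hp1 hθ0 hθ1
    · rw [Real.rpow_logb hp2 hp1.ne hθ0]
  have hH : (μH[κ] : Measure X) E = 0 := by
    have h1 := hausdorffMeasure_of_dimH_lt (s := E) (d := ⟨κ, hκ.le⟩) (by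
      rw [hE]
      exact ENNReal.coe_pos.2 (show (0 : NNReal) < ⟨κ, hκ.le⟩ from hκ))
    exact h1
  -- the covering
  obtain ⟨t, ht1, ht2, ht3⟩ : ∃ t : ℕ → Set X, E ⊆ ⋃ n, t n ∧
      (∀ n, Metric.ediam (t n) ≤ ENNReal.ofReal (1 / (2 * p))) ∧
      ∑' n, (⨆ _ : (t n).Nonempty, Metric.ediam (t n) ^ κ) < ENNReal.ofReal (θ / 16) := by
    rw [Measure.hausdorffMeasure_apply] at hH
    have h1 : (⨅ (t : ℕ → Set X) (_ : E ⊆ ⋃ n, t n)
        (_ : ∀ n, Metric.ediam (t n) ≤ ENNReal.ofReal (1 / (2 * p))),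
          ∑' n, ⨆ _ : (t n).Nonempty, Metric.ediam (t n) ^ κ) < ENNReal.ofReal (θ / 16) := by
      refine lt_of_le_of_lt ?_ (ENNReal.ofReal_pos.2 (by positivity : (0 : ℝ) < θ / 16))
      rw [← hH]
      exact le_iSup₂ (f := fun (r : ℝ≥0∞) (_ : 0 < r) => ⨅ (t : ℕ → Set X) (_ : E ⊆ ⋃ n, t n)
        (_ : ∀ n, Metric.ediam (t n) ≤ r), ∑' n, ⨆ _ : (t n).Nonempty, Metric.ediam (t n) ^ κ)
        (ENNReal.ofReal (1 / (2 * p))) (ENNReal.ofReal_pos.2 (by positivity))
    simp only [iInf_lt_iff] at h1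
    obtain ⟨t, ht1, ht2, ht3⟩ := h1
    exact ⟨t, ht1, ht2, ht3⟩
  -- the balls
  have hball : ∀ n, ∃ b : X × ℕ, t n ⊆ Metric.closedBall b.1 (1 / (p : ℝ) ^ b.2) ∧ 1 ≤ b.2 ∧
      ENNReal.ofReal (θ ^ b.2) ≤ ENNReal.ofReal (1 / θ) *
        (⨆ _ : (t n).Nonempty, Metric.ediam (t n) ^ κ) +
          ENNReal.ofReal (1 / 16) * ENNReal.ofReal ((1 / 2) ^ (n + 1)) := by
    intro n
    have hfin : Metric.ediam (t n) ≠ ⊤ := ((ht2 n).trans_lt ENNReal.ofReal_lt_top).ne
    set d : ℝ := (Metric.ediam (t n)).toReal with hd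
    have hd0 : 0 ≤ d := ENNReal.toReal_nonneg
    have hd1 : d ≤ 1 / (2 * p) := by
      have := ENNReal.toReal_mono ENNReal.ofReal_ne_top (ht2 n)
      rwa [ENNReal.toReal_ofReal (by positivity)] at this
    rcases Set.eq_empty_or_nonempty (t n) with h0 | h0
    · obtain ⟨N, hN1, hN2, hN3⟩ := level hp hκ hθκ (le_refl (0 : ℝ)) (by positivity)
        (by positivity : (0 : ℝ) < 1 / 16 * (1 / 2) ^ (n + 1))
      refine ⟨(0, N), by rw [h0]; exact Set.empty_subset _, hN1, ?_⟩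
      rw [Real.zero_rpow hκ.ne', mul_zero, zero_add] at hN3
      refine (ENNReal.ofReal_le_ofReal hN3).trans ?_
      rw [ENNReal.ofReal_mul (by norm_num)]
      exact le_add_self
    · obtain ⟨N, hN1, hN2, hN3⟩ := level hp hκ hθκ hd0 hd1
        (by positivity : (0 : ℝ) < 1 / 16 * (1 / 2) ^ (n + 1))
      obtain ⟨x0, hx0⟩ := h0
      refine ⟨(x0, N), ?_, hN1, ?_⟩
      · intro x hx
        rw [Metric.mem_closedBall]
        have h1 : edist x x0 ≤ Metric.ediam (t n) := Metric.edist_le_ediam_of_mem hx hx0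
        have h2 : dist x x0 ≤ d := by
          rw [dist_edist]
          exact ENNReal.toReal_mono hfin h1
        exact h2.trans hN2
      · refine (ENNReal.ofReal_le_ofReal hN3).trans ?_
        rw [ENNReal.ofReal_add (by positivity) (by positivity), ENNReal.ofReal_mul (by positivity),
          ENNReal.ofReal_mul (by norm_num)]
        refine add_le_add (mul_le_mul_right ?_ _) le_rfl
        rw [iSup_pos ⟨x0, hx0⟩, ← ENNReal.ofReal_rpow_of_nonneg hd0 hκ.le, hd, ENNReal.ofReal_toReal hfin]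
  choose b hb1 hb2 hb3 using hball
  have hsum : ∑' n, ENNReal.ofReal (θ ^ (b n).2) ≤ ENNReal.ofReal (1 / 8) := by
    refine (ENNReal.tsum_le_tsum hb3).trans ?_
    rw [ENNReal.tsum_add, ENNReal.tsum_mul_left, ENNReal.tsum_mul_left]
    have h1 : ENNReal.ofReal (1 / θ) * ∑' n, (⨆ _ : (t n).Nonempty, Metric.ediam (t n) ^ κ) ≤
        ENNReal.ofReal (1 / 16) := by
      refine (mul_le_mul_right ht3.le _).trans (le_of_eq ?_)
      rw [← ENNReal.ofReal_mul (by positivity)]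
      congr 1
      field_simp
    have h2 : ∑' n : ℕ, ENNReal.ofReal ((1 / 2 : ℝ) ^ (n + 1)) = 1 := by
      have e : ∀ n : ℕ, ENNReal.ofReal ((1 / 2 : ℝ) ^ (n + 1)) = (2⁻¹ : ℝ≥0∞) ^ (n + 1) := by
        intro n
        rw [ENNReal.ofReal_pow (by norm_num)]
        congr 1
        rw [one_div, ENNReal.ofReal_inv_of_pos (by norm_num)]
        simp
      simp_rw [e]
      rw [ENNReal.tsum_geometric_add_one, ENNReal.one_sub_inv_two, inv_inv]
      exact ENNReal.inv_mul_cancel (by norm_num) (by norm_num)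
    rw [h2, mul_one]
    refine (add_le_add h1 le_rfl).trans (le_of_eq ?_)
    rw [← ENNReal.ofReal_add (by norm_num) (by norm_num)]
    norm_num
  -- a finite subfamily
  have hfin : ∀ m : ℕ, ∑ n ∈ range m, θ ^ (b n).2 ≤ 1 / 8 := by
    intro m
    have h1 : ENNReal.ofReal (∑ n ∈ range m, θ ^ (b n).2) ≤ ENNReal.ofReal (1 / 8) := by
      rw [ENNReal.ofReal_sum_of_nonneg (fun n _ => by positivity)]
      exact (ENNReal.sum_le_tsum _).trans hsum
    exact (ENNReal.ofReal_le_ofReal_iff (by norm_num)).1 h1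
  set S : ℕ → Set X := fun m =>
    (⋃ n ∈ range m, Metric.closedBall (b n).1 (1 / (p : ℝ) ^ (b n).2))ᶜ with hS
  have hSm : ∀ m, MeasurableSet (S m) := fun m =>
    (Finset.measurableSet_biUnion _ fun n _ => Metric.isClosed_closedBall.measurableSet).compl
  have hanti : Antitone S := by
    intro m m' hmm
    rw [hS]
    simp only
    apply Set.compl_subset_compl.2
    exact Set.biUnion_subset_biUnion_left fun n hn => mem_range.2 ((mem_range.1 hn).trans_le hmm)
  have hlim := tendsto_measure_iInter_atTop (μ := ν) (fun m => (hSm m).nullMeasurableSet) hanti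
    ⟨0, measure_ne_top _ _⟩
  have hzero : ν (⋂ m, S m) = 0 := by
    refine measure_mono_null ?_ hν
    intro x hx hxE
    obtain ⟨n, hn⟩ := Set.mem_iUnion.1 (ht1 hxE)
    have h1 := Set.mem_iInter.1 hx (n + 1)
    apply h1
    simp only [Set.mem_iUnion]
    exact ⟨n, mem_range.2 (Nat.lt_succ_self n), hb1 n hn⟩
  rw [hzero] at hlim
  obtain ⟨m, hm⟩ := ((hlim.eventually (gt_mem_nhds (ENNReal.ofReal_pos.2 hε)))).exists
  -- the family
  obtain ⟨C, hC1, hC2, hC3⟩ := of_balls hp hθ0 ((range m).image b) (by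
    intro c hc
    obtain ⟨n, -, rfl⟩ := mem_image.1 hc
    exact hb2 n) (by
    refine le_trans ?_ (hfin m)
    have h2 : ∀ s : Finset ℕ, ∑ c ∈ s.image b, θ ^ c.2 ≤ ∑ n ∈ s, θ ^ (b n).2 := by
      intro s
      induction s using Finset.induction_on with
      | empty => simp
      | insert n s hn ih =>
        rw [image_insert, sum_insert hn]
        by_cases h : b n ∈ s.image b
        · rw [insert_eq_of_mem h]
          have : 0 ≤ θ ^ (b n).2 := by positivity
          linarith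
        · rw [sum_insert h]
          linarith
    exact h2 _)
  refine ⟨C, hC1, hC2, ?_⟩
  have h1 : (Un p C)ᶜ ⊆ S m := by
    intro x hx hxS
    apply hx
    apply hC3
    simp only [Set.mem_iUnion] at hxS ⊢
    obtain ⟨n, hn, hxn⟩ := hxS
    exact ⟨b n, mem_image_of_mem b hn, hxn⟩
  have h2 : ν (Un p C)ᶜ ≤ ENNReal.ofReal ε := (measure_mono h1).trans hm.le
  exact ENNReal.toReal_le_of_le_ofReal hε.le h2

/-- the singular part of a `×p`, `×q`-invariant measure -/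
theorem cov_of_inv {p q : ℕ} (hp : 2 ≤ p) (h : FF.CoprimePair p q) (μ : Measure X)
    [IsProbabilityMeasure μ]
    (hip : MeasurePreserving (fun x : X => p • x) μ μ)
    (hiq : MeasurePreserving (fun x : X => q • x) μ μ) :
    ∃ D : Set X, MeasurableSet D ∧ μ.restrict D = μ D • (volume : Measure X) ∧
      Cov p (μ.restrict Dᶜ) := by
  classical
  have hpR : (2 : ℝ) ≤ p := by exact_mod_cast hp
  have hp0 : (0 : ℝ) < p := by linarith
  have hp1 : (1 : ℝ) / p < 1 := by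
    rw [div_lt_one hp0]; linarith
  have hp2 : (0 : ℝ) < 1 / p := by positivity
  obtain ⟨D, hDm, hD, H⟩ := FF.cov h μ hip hiq
  refine ⟨D, hDm, hD, ?_⟩
  intro θ hθ0 hθ1 ε hε
  obtain ⟨A, hA⟩ := exists_pow_lt_of_lt_one hp2 hθ1
  have hA1 : 1 ≤ A := by
    rcases Nat.eq_zero_or_pos A with h0 | h0
    · rw [h0, pow_zero] at hA
      linarith
    · exact h0
  obtain ⟨ρ0, hρ0, hρ⟩ := H A ε ((1 / 8) ^ A) hε (by positivity)
  obtain ⟨n', hn'⟩ := exists_pow_lt_of_lt_one hρ0 hp1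
  set n := n' + 1 with hn
  have hnρ : (1 / (p : ℝ)) ^ n ≤ ρ0 := by
    rw [hn, pow_succ]
    have : (0 : ℝ) < (1 / p) ^ n' := by positivity
    nlinarith
  obtain ⟨S, K, hK2, hSK, hK, hμ⟩ := hρ ((1 / (p : ℝ)) ^ n) (by positivity) hnρ
  -- the number of balls
  have hKR : (0 : ℝ) < K := by
    have : 0 < K := by omega
    exact_mod_cast this
  have h8 : (K : ℝ) * θ ^ n ≤ 1 / 8 := by
    have h1 : ((K : ℝ) * θ ^ n) ^ A ≤ (1 / 8) ^ A := by
      have h2 : (θ ^ n) ^ A ≤ (1 / p) ^ n := by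
        rw [← pow_mul, mul_comm, pow_mul]
        exact pow_le_pow_left₀ (by positivity) hA.le n
      calc ((K : ℝ) * θ ^ n) ^ A = (K : ℝ) ^ A * (θ ^ n) ^ A := mul_pow _ _ _
        _ ≤ (K : ℝ) ^ A * (1 / p) ^ n := mul_le_mul_of_nonneg_left h2 (by positivity)
        _ = (1 / p) ^ n * (K : ℝ) ^ A := mul_comm _ _
        _ ≤ (1 / 8) ^ A := hK
    exact le_of_pow_le_pow_left₀ (by omega) (by norm_num) h1
  obtain ⟨C, hC1, hC2, hC3⟩ := of_balls hp hθ0 (S.image fun x => (x, n)) (by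
    intro c hc
    obtain ⟨x, -, rfl⟩ := mem_image.1 hc
    exact Nat.succ_pos _) (by
    rw [sum_image (by
      intro x _ y _ hxy
      exact (Prod.ext_iff.1 hxy).1)]
    simp only
    rw [sum_const, nsmul_eq_mul]
    refine le_trans ?_ h8
    have : (S.card : ℝ) ≤ K := by exact_mod_cast hSK
    exact mul_le_mul_of_nonneg_right this (by positivity))
  refine ⟨C, hC1, hC2, ?_⟩
  have h1 : μ.restrict Dᶜ (Un p C)ᶜ ≤ ENNReal.ofReal ε := by
    rw [Measure.restrict_apply (measurable_Un p C).compl]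
    refine (measure_mono ?_).trans hμ
    rintro x ⟨hx1, hx2⟩
    refine ⟨hx2, fun hx3 => hx1 ?_⟩
    apply hC3
    simp only [Set.mem_iUnion] at hx3 ⊢
    obtain ⟨y, hy, hxy⟩ := hx3
    refine ⟨(y, n), mem_image_of_mem _ hy, ?_⟩
    simpa using hxy
  exact ENNReal.toReal_le_of_le_ofReal hε.le h1

end Pool.Agent.TH463.UP
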