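import Pool.Agent.H769R3.Shadow
import Pool.Agent.H769R3.Stop

/-!
Prefixes in base `p` of points of the circle and their counting (base `p` version of parts of the
module `H769R3.Digits`).
-/

set_option autoImplicit false

open Finset

namespace Pool.Agent.TH463.UP

open Pool.Agent.H769R3 (X rep rep_nonneg rep_lt_one coe_rep rep_coe measurable_rep exists_lift
  norm_coe_le coe_int_zero)

lemma rep_pow_smul (p ℓ : ℕ) (x : X) : rep ((p ^ ℓ : ℕ) • x) = Int.fract ((p : ℝ) ^ ℓ * rep x) := by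
  conv_lhs => rw [← coe_rep x]
  rw [← AddCircle.coe_nsmul, rep_coe, nsmul_eq_mul]
  push_cast
  rfl

/-- The integer formed by the first `R` digits in base `p`. -/
noncomputable def D (p R : ℕ) (x : X) : ℕ := ⌊(p : ℝ) ^ R * rep x⌋₊

section

variable {p : ℕ} (hp : 2 ≤ p)

include hp in
lemma D_lt (R : ℕ) (x : X) : D p R x < p ^ R := by
  unfold D
  have hp0 : (0 : ℝ) < p := by
    have : 0 < p := by omega
    exact_mod_cast this
  rw [Nat.floor_lt (mul_nonneg (by positivity) (rep_nonneg x))]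
  push_cast
  have := rep_lt_one x
  have h : (0 : ℝ) < (p : ℝ) ^ R := by positivity
  nlinarith

lemma D_add (ℓ R : ℕ) (x : X) : D p (ℓ + R) x = D p ℓ x * p ^ R + D p R ((p ^ ℓ : ℕ) • x) := by
  unfold D
  rw [rep_pow_smul]
  have h0 : 0 ≤ (p : ℝ) ^ ℓ * rep x := mul_nonneg (by positivity) (rep_nonneg x)
  have h1 : (p : ℝ) ^ (ℓ + R) * rep x =
      ((⌊(p : ℝ) ^ ℓ * rep x⌋₊ * p ^ R : ℕ) : ℝ) + (p : ℝ) ^ R * Int.fract ((p : ℝ) ^ ℓ * rep x) := by
    have h2 : (p : ℝ) ^ ℓ * rep x = ⌊(p : ℝ) ^ ℓ * rep x⌋₊ + Int.fract ((p : ℝ) ^ ℓ * rep x) := by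
      have h3 := Int.floor_add_fract ((p : ℝ) ^ ℓ * rep x)
      have h4 : ((⌊(p : ℝ) ^ ℓ * rep x⌋₊ : ℕ) : ℝ) = ((⌊(p : ℝ) ^ ℓ * rep x⌋ : ℤ) : ℝ) := by
        rw [natCast_floor_eq_intCast_floor h0]
      rw [h4]
      exact h3.symm
    calc (p : ℝ) ^ (ℓ + R) * rep x = ((p : ℝ) ^ ℓ * rep x) * (p : ℝ) ^ R := by ring
      _ = (⌊(p : ℝ) ^ ℓ * rep x⌋₊ + Int.fract ((p : ℝ) ^ ℓ * rep x)) * (p : ℝ) ^ R := by rw [← h2]
      _ = _ := by push_cast; ring
  rw [h1, add_comm, Nat.floor_add_natCast (mul_nonneg (by positivity) (Int.fract_nonneg _)), add_comm]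

open Classical in
/-- Number of prefixes of length `R` in base `p` of points of `A`. -/
noncomputable def cnt (p R : ℕ) (A : Set X) : ℕ :=
  ((range (p ^ R)).filter (fun s => ∃ x ∈ A, D p R x = s)).card

lemma cnt_mono (R : ℕ) {A B : Set X} (h : A ⊆ B) : cnt p R A ≤ cnt p R B := by
  classical
  unfold cnt
  apply card_le_card
  intro s hs
  rw [mem_filter] at hs ⊢
  obtain ⟨h1, x, hx, h2⟩ := hs
  exact ⟨h1, x, h hx, h2⟩

lemma cnt_union (R : ℕ) (A B : Set X) : cnt p R (A ∪ B) ≤ cnt p R A + cnt p R B := by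
  classical
  unfold cnt
  refine le_trans (card_le_card ?_) (card_union_le _ _)
  intro s hs
  rw [mem_filter] at hs
  rw [mem_union, mem_filter, mem_filter]
  obtain ⟨h1, x, hx, h2⟩ := hs
  rcases hx with hx | hx
  · exact Or.inl ⟨h1, x, hx, h2⟩
  · exact Or.inr ⟨h1, x, hx, h2⟩

lemma cnt_biUnion (R : ℕ) {ι : Type*} (s : Finset ι) (B : ι → Set X) :
    cnt p R (⋃ i ∈ s, B i) ≤ ∑ i ∈ s, cnt p R (B i) := by
  classical
  unfold cnt
  refine le_trans (card_le_card ?_) card_biUnion_le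
  intro t ht
  rw [mem_filter] at ht
  rw [mem_biUnion]
  obtain ⟨h1, x, hx, h2⟩ := ht
  simp only [Set.mem_iUnion] at hx
  obtain ⟨i, hi, hx⟩ := hx
  exact ⟨i, hi, mem_filter.2 ⟨h1, x, hx, h2⟩⟩

include hp in
lemma cnt_mul (ℓ R : ℕ) {A A' : Set X} (h : ∀ x ∈ A, (p ^ ℓ : ℕ) • x ∈ A') :
    cnt p (ℓ + R) A ≤ cnt p ℓ A * cnt p R A' := by
  classical
  unfold cnt
  rw [← card_product]
  apply card_le_card_of_surjOn (fun c : ℕ × ℕ => c.1 * p ^ R + c.2)
  intro s hs
  rw [mem_coe, mem_filter] at hs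
  obtain ⟨h1, x, hx, h2⟩ := hs
  refine ⟨(D p ℓ x, D p R ((p ^ ℓ : ℕ) • x)), ?_, ?_⟩
  · rw [mem_coe, mem_product, mem_filter, mem_filter, mem_range, mem_range]
    exact ⟨⟨D_lt hp _ _, x, hx, rfl⟩, D_lt hp _ _, _, h x hx, rfl⟩
  · simp only
    rw [← D_add, h2]

lemma cnt_le_pow (R : ℕ) (A : Set X) : cnt p R A ≤ p ^ R := by
  classical
  unfold cnt
  refine (card_filter_le _ _).trans ?_
  rw [card_range]

lemma cnt_le_one {n s : ℕ} {A : Set X} (h : ∀ x ∈ A, D p n x = s) : cnt p n A ≤ 1 := by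
  classical
  unfold cnt
  have : (range (p ^ n)).filter (fun t => ∃ x ∈ A, D p n x = t) ⊆ {s} := by
    intro t ht
    rw [mem_filter] at ht
    obtain ⟨_, x, hx, hxt⟩ := ht
    rw [mem_singleton, ← hxt, h x hx]
  exact (card_le_card this).trans (by simp)

include hp in
lemma D_near (ℓ : ℕ) (c : ℕ) (x z : X) (h : ‖x - z‖ ≤ c / (p : ℝ) ^ ℓ) :
    ∃ i ∈ Finset.Icc (-(c : ℤ)) (c + 1),
      (D p ℓ x : ℤ) = (⌊(p : ℝ) ^ ℓ * rep z⌋ + i) % (p : ℤ) ^ ℓ := by
  obtain ⟨δ, h1, h2⟩ := exists_lift (x - z)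
  rw [← h2] at h
  have hx : x = ((rep z + δ : ℝ) : X) := by
    rw [AddCircle.coe_add, coe_rep, h1]
    abel
  have hrep : rep x = rep z + δ - ⌊rep z + δ⌋ := by
    conv_lhs => rw [hx, rep_coe]
    rw [Int.fract]
  set k := ⌊rep z + δ⌋ with hk
  have hp0 : (0 : ℝ) < p := by
    have : 0 < p := by omega
    exact_mod_cast this
  have hpos : (0 : ℝ) < (p : ℝ) ^ ℓ := by positivity
  have hδ : |(p : ℝ) ^ ℓ * δ| ≤ c := by
    rw [abs_mul, abs_of_pos hpos]
    calc (p : ℝ) ^ ℓ * |δ| ≤ (p : ℝ) ^ ℓ * (c / (p : ℝ) ^ ℓ) := mul_le_mul_of_nonneg_left h hpos.le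
      _ = c := by field_simp
  rw [abs_le] at hδ
  have hD : (D p ℓ x : ℤ) = ⌊(p : ℝ) ^ ℓ * rep z + (p : ℝ) ^ ℓ * δ⌋ - (p : ℤ) ^ ℓ * k := by
    unfold D
    rw [Int.natCast_floor_eq_floor (mul_nonneg (by positivity) (rep_nonneg x)), hrep]
    have : (p : ℝ) ^ ℓ * (rep z + δ - k) =
        (p : ℝ) ^ ℓ * rep z + (p : ℝ) ^ ℓ * δ - (((p : ℤ) ^ ℓ * k : ℤ) : ℝ) := by
      push_cast
      ring
    rw [this, Int.floor_sub_intCast]
  refine ⟨⌊(p : ℝ) ^ ℓ * rep z + (p : ℝ) ^ ℓ * δ⌋ - ⌊(p : ℝ) ^ ℓ * rep z⌋, ?_, ?_⟩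
  · rw [Finset.mem_Icc]
    constructor
    · have h3 : ⌊(p : ℝ) ^ ℓ * rep z⌋ - c ≤ ⌊(p : ℝ) ^ ℓ * rep z + (p : ℝ) ^ ℓ * δ⌋ := by
        rw [Int.le_floor]
        push_cast
        have := Int.floor_le ((p : ℝ) ^ ℓ * rep z)
        linarith
      linarith
    · have h3 : ⌊(p : ℝ) ^ ℓ * rep z + (p : ℝ) ^ ℓ * δ⌋ < ⌊(p : ℝ) ^ ℓ * rep z⌋ + c + 2 := by
        rw [Int.floor_lt]
        push_cast
        have := Int.lt_floor_add_one ((p : ℝ) ^ ℓ * rep z)
        linarith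
      omega
  · have h3 : ⌊(p : ℝ) ^ ℓ * rep z⌋ +
        (⌊(p : ℝ) ^ ℓ * rep z + (p : ℝ) ^ ℓ * δ⌋ - ⌊(p : ℝ) ^ ℓ * rep z⌋) =
        (D p ℓ x : ℤ) + (p : ℤ) ^ ℓ * k := by
      rw [hD]; ring
    rw [h3, Int.add_mul_emod_self_left]
    symm
    apply Int.emod_eq_of_lt (by positivity)
    exact_mod_cast D_lt hp ℓ x

include hp in
lemma cnt_near (ℓ c : ℕ) (A : Set X) (Z : Finset X)
    (h : ∀ x ∈ A, ∃ z ∈ Z, ‖x - z‖ ≤ c / (p : ℝ) ^ ℓ) : cnt p ℓ A ≤ (2 * c + 2) * Z.card := by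
  classical
  have hcard : (Z ×ˢ Finset.Icc (-(c : ℤ)) (c + 1)).card = (2 * c + 2) * Z.card := by
    rw [card_product, Int.card_Icc, mul_comm]
    congr 1
    omega
  rw [← hcard]
  unfold cnt
  apply card_le_card_of_surjOn
    (fun b : X × ℤ => ((⌊(p : ℝ) ^ ℓ * rep b.1⌋ + b.2) % (p : ℤ) ^ ℓ).toNat)
  intro s hs
  rw [mem_coe, mem_filter] at hs
  obtain ⟨_, x, hx, h2⟩ := hs
  obtain ⟨z, hz, hxz⟩ := h x hx
  obtain ⟨i, hi, hD⟩ := D_near hp ℓ c x z hxz
  refine ⟨(z, i), ?_, ?_⟩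
  · rw [mem_coe, mem_product]
    exact ⟨hz, hi⟩
  · simp only
    rw [← hD, ← h2, Int.toNat_natCast]

open Classical in
/-- Number of times before `R` at which the orbit under `p` is outside `U`. -/
noncomputable def bad (p : ℕ) (U : Set X) (R : ℕ) (x : X) : ℕ :=
  ((range R).filter (fun j => (p ^ j : ℕ) • x ∉ U)).card

lemma bad_eq_sum (U : Set X) (R : ℕ) (x : X) [∀ j : ℕ, Decidable ((p ^ j : ℕ) • x ∉ U)] :
    bad p U R x = ∑ j ∈ range R, if (p ^ j : ℕ) • x ∉ U then 1 else 0 := by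
  unfold bad
  rw [card_filter]
  apply sum_congr rfl
  intro j _
  congr

lemma bad_add (U : Set X) (n m : ℕ) (x : X) :
    bad p U (n + m) x = bad p U n x + bad p U m ((p ^ n : ℕ) • x) := by
  classical
  rw [bad_eq_sum, bad_eq_sum, bad_eq_sum, sum_range_add]
  congr 1
  apply sum_congr rfl
  intro j _
  have e : (p ^ j : ℕ) • ((p ^ n : ℕ) • x) = (p ^ (n + j) : ℕ) • x := by
    rw [← mul_smul, ← pow_add, add_comm]
  rw [e]

end

/-- the union of the cylinders of a family; `(n, s)` stands for the points whose first `n` digits in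
base `p` form the integer `s` -/
def Un (p : ℕ) (C : Finset (ℕ × ℕ)) : Set X := {x | ∃ c ∈ C, D p c.1 x = c.2}

open Classical in
/-- the families of cylinders of lengths between `1` and `L` and of weight at most `1 / 2` -/
noncomputable def Fam (p : ℕ) (θ : ℝ) (L : ℕ) : Finset (Finset (ℕ × ℕ)) :=
  ((range (L + 1) ×ˢ range (p ^ L)).powerset).filter fun C =>
    (∀ c ∈ C, 1 ≤ c.1) ∧ ∑ c ∈ C, θ ^ c.1 ≤ 1 / 2

lemma mem_Fam {p : ℕ} {θ : ℝ} {L : ℕ} {C : Finset (ℕ × ℕ)} : C ∈ Fam p θ L ↔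
    (∀ c ∈ C, c.1 ≤ L ∧ c.2 < p ^ L ∧ 1 ≤ c.1) ∧ ∑ c ∈ C, θ ^ c.1 ≤ 1 / 2 := by
  classical
  unfold Fam
  rw [mem_filter, mem_powerset]
  constructor
  · rintro ⟨h1, h2, h3⟩
    refine ⟨fun c hc => ?_, h3⟩
    have h4 := mem_product.1 (h1 hc)
    rw [mem_range, mem_range] at h4
    exact ⟨by omega, h4.2, h2 c hc⟩
  · rintro ⟨h1, h3⟩
    refine ⟨fun c hc => ?_, fun c hc => (h1 c hc).2.2, h3⟩
    rw [mem_product, mem_range, mem_range]
    have := h1 c hc
    exact ⟨by omega, this.2.1⟩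

/-- few points -/
theorem count {p : ℕ} (hp : 2 ≤ p) {θ : ℝ} (hθ0 : 0 < θ) (hθ1 : θ < 1) {L : ℕ}
    {C : Finset (ℕ × ℕ)} (hC : C ∈ Fam p θ L) :
    ∀ R B : ℕ, (cnt p R {x | bad p (Un p C) R x ≤ B} : ℝ) * θ ^ R ≤ (p : ℝ) ^ L * (2 * p) ^ B := by
  classical
  rw [mem_Fam] at hC
  obtain ⟨hC1, hC2⟩ := hC
  have hp1 : (1 : ℝ) ≤ p := by
    have : 1 ≤ p := by omega
    exact_mod_cast this
  have hp0 : (0 : ℝ) < p := by linarith
  intro R
  induction R using Nat.strong_induction_on with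
  | _ R ih =>
    intro B
    by_cases hRL : R ≤ L
    · have h1 : (cnt p R {x | bad p (Un p C) R x ≤ B} : ℝ) ≤ (p : ℝ) ^ R := by
        exact_mod_cast cnt_le_pow R _
      have h2 : (p : ℝ) ^ R ≤ (p : ℝ) ^ L := pow_le_pow_right₀ hp1 hRL
      have h3 : θ ^ R ≤ 1 := pow_le_one₀ hθ0.le hθ1.le
      have h4 : (1 : ℝ) ≤ (2 * p) ^ B := one_le_pow₀ (by linarith)
      calc (cnt p R {x | bad p (Un p C) R x ≤ B} : ℝ) * θ ^ R ≤ (p : ℝ) ^ L * 1 :=
            mul_le_mul (h1.trans h2) h3 (by positivity) (by positivity)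
        _ ≤ (p : ℝ) ^ L * (2 * p) ^ B := mul_le_mul_of_nonneg_left h4 (by positivity)
    · push Not at hRL
      set U := Un p C with hU
      -- the pieces
      have hsub : {x | bad p U R x ≤ B} ⊆ (⋃ c ∈ C, {x | D p c.1 x = c.2 ∧ bad p U R x ≤ B}) ∪
          {x | x ∉ U ∧ bad p U R x ≤ B} := by
        intro x hx
        by_cases hxU : x ∈ U
        · left
          obtain ⟨c, hc, hxc⟩ := hxU
          simp only [Set.mem_iUnion]
          exact ⟨c, hc, hxc, hx⟩
        · right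
          exact ⟨hxU, hx⟩
      have hcyl : ∀ c ∈ C, cnt p R {x | D p c.1 x = c.2 ∧ bad p U R x ≤ B} ≤
          cnt p (R - c.1) {x | bad p U (R - c.1) x ≤ B} := by
        intro c hc
        have hcL := (hC1 c hc).1
        have hR : R = c.1 + (R - c.1) := by omega
        have h1 : cnt p (c.1 + (R - c.1)) {x | D p c.1 x = c.2 ∧ bad p U R x ≤ B} ≤
            cnt p c.1 {x | D p c.1 x = c.2 ∧ bad p U R x ≤ B} *
              cnt p (R - c.1) {x | bad p U (R - c.1) x ≤ B} := by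
          apply cnt_mul hp
          intro x hx
          have h2 := hx.2
          rw [hR, bad_add] at h2
          change bad p U (R - c.1) ((p ^ c.1 : ℕ) • x) ≤ B
          have : R - c.1 = c.1 + (R - c.1) - c.1 := by omega
          omega
        rw [← hR] at h1
        refine h1.trans ?_
        have h3 : cnt p c.1 {x | D p c.1 x = c.2 ∧ bad p U R x ≤ B} ≤ 1 :=
          cnt_le_one fun x hx => hx.1
        calc _ ≤ 1 * cnt p (R - c.1) {x | bad p U (R - c.1) x ≤ B} := Nat.mul_le_mul_right _ h3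
          _ = _ := one_mul _
      have hout : (cnt p R {x | x ∉ U ∧ bad p U R x ≤ B} : ℝ) * θ ^ R ≤
          (p : ℝ) ^ L * (2 * p) ^ B * (1 / 2) := by
        rcases Nat.eq_zero_or_pos B with hB | hB
        · have : {x : X | x ∉ U ∧ bad p U R x ≤ B} = ∅ := by
            ext x
            simp only [Set.mem_setOf_eq, Set.mem_empty_iff_false, iff_false, not_and, not_le]
            intro hx
            have hR : R = 1 + (R - 1) := by omega
            rw [hR, bad_add, hB]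
            have : bad p U 1 x = 1 := by
              rw [bad_eq_sum]
              simp [hx]
            omega
          rw [this]
          have h0 : cnt p R (∅ : Set X) = 0 := by
            unfold cnt
            simp
          rw [h0]
          simp only [Nat.cast_zero, zero_mul]
          positivity
        · obtain ⟨B', rfl⟩ : ∃ B', B = B' + 1 := ⟨B - 1, by omega⟩
          have hR : R = 1 + (R - 1) := by omega
          have h1 : cnt p (1 + (R - 1)) {x | x ∉ U ∧ bad p U R x ≤ B' + 1} ≤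
              cnt p 1 {x | x ∉ U ∧ bad p U R x ≤ B' + 1} *
                cnt p (R - 1) {x | bad p U (R - 1) x ≤ B'} := by
            apply cnt_mul hp
            intro x hx
            have h2 := hx.2
            have h3 : bad p U 1 x = 1 := by
              rw [bad_eq_sum]
              simp [hx.1]
            rw [hR, bad_add, h3] at h2
            change bad p U (R - 1) ((p ^ 1 : ℕ) • x) ≤ B'
            have : 1 + (R - 1) - 1 = R - 1 := by omega
            omega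
          rw [← hR] at h1
          have h3 : cnt p 1 {x | x ∉ U ∧ bad p U R x ≤ B' + 1} ≤ p := by
            simpa using cnt_le_pow (p := p) 1 {x | x ∉ U ∧ bad p U R x ≤ B' + 1}
          have h4 : cnt p R {x | x ∉ U ∧ bad p U R x ≤ B' + 1} ≤
              p * cnt p (R - 1) {x | bad p U (R - 1) x ≤ B'} := h1.trans (Nat.mul_le_mul_right _ h3)
          have h5 : (cnt p R {x | x ∉ U ∧ bad p U R x ≤ B' + 1} : ℝ) ≤
              p * (cnt p (R - 1) {x | bad p U (R - 1) x ≤ B'} : ℝ) := by exact_mod_cast h4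
          have h6 := ih (R - 1) (by omega) B'
          have e : θ ^ R = θ * θ ^ (R - 1) := by
            rw [← pow_succ']
            congr 1
            omega
          rw [e]
          have h7 : 0 ≤ (cnt p (R - 1) {x | bad p U (R - 1) x ≤ B'} : ℝ) * θ ^ (R - 1) := by positivity
          calc (cnt p R {x | x ∉ U ∧ bad p U R x ≤ B' + 1} : ℝ) * (θ * θ ^ (R - 1))
              ≤ p * (cnt p (R - 1) {x | bad p U (R - 1) x ≤ B'} : ℝ) * (θ * θ ^ (R - 1)) :=
                mul_le_mul_of_nonneg_right h5 (by positivity)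
            _ = p * θ * ((cnt p (R - 1) {x | bad p U (R - 1) x ≤ B'} : ℝ) * θ ^ (R - 1)) := by ring
            _ ≤ p * 1 * ((cnt p (R - 1) {x | bad p U (R - 1) x ≤ B'} : ℝ) * θ ^ (R - 1)) := by
                apply mul_le_mul_of_nonneg_right _ h7
                exact mul_le_mul_of_nonneg_left hθ1.le hp0.le
            _ ≤ p * 1 * ((p : ℝ) ^ L * (2 * p) ^ B') := by
                apply mul_le_mul_of_nonneg_left h6 (by positivity)
            _ = (p : ℝ) ^ L * (2 * p) ^ (B' + 1) * (1 / 2) := by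
                rw [pow_succ (2 * (p : ℝ))]; ring
      have hin : (∑ c ∈ C, (cnt p (R - c.1) {x | bad p U (R - c.1) x ≤ B} : ℝ)) * θ ^ R ≤
          (p : ℝ) ^ L * (2 * p) ^ B * (1 / 2) := by
        rw [sum_mul]
        have h1 : ∀ c ∈ C, (cnt p (R - c.1) {x | bad p U (R - c.1) x ≤ B} : ℝ) * θ ^ R ≤
            (p : ℝ) ^ L * (2 * p) ^ B * θ ^ c.1 := by
          intro c hc
          have hcL := hC1 c hc
          have h2 := ih (R - c.1) (by omega) B
          have e : θ ^ R = θ ^ (R - c.1) * θ ^ c.1 := by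
            rw [← pow_add]
            congr 1
            omega
          rw [e, ← mul_assoc]
          exact mul_le_mul_of_nonneg_right h2 (by positivity)
        refine (sum_le_sum h1).trans ?_
        rw [← mul_sum]
        exact mul_le_mul_of_nonneg_left hC2 (by positivity)
      have htot : (cnt p R {x | bad p U R x ≤ B} : ℝ) ≤
          (∑ c ∈ C, (cnt p (R - c.1) {x | bad p U (R - c.1) x ≤ B} : ℝ)) +
            (cnt p R {x | x ∉ U ∧ bad p U R x ≤ B} : ℝ) := by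
        have h1 := (cnt_mono (p := p) R hsub).trans (cnt_union R _ _)
        have h2 := cnt_biUnion (p := p) R C (fun c => {x | D p c.1 x = c.2 ∧ bad p U R x ≤ B})
        have h3 := sum_le_sum hcyl
        have h4 : cnt p R {x | bad p U R x ≤ B} ≤
            (∑ c ∈ C, cnt p (R - c.1) {x | bad p U (R - c.1) x ≤ B}) +
            cnt p R {x | x ∉ U ∧ bad p U R x ≤ B} := by omega
        exact_mod_cast h4
      calc (cnt p R {x | bad p U R x ≤ B} : ℝ) * θ ^ R ≤
            ((∑ c ∈ C, (cnt p (R - c.1) {x | bad p U (R - c.1) x ≤ B} : ℝ)) +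
            (cnt p R {x | x ∉ U ∧ bad p U R x ≤ B} : ℝ)) * θ ^ R :=
              mul_le_mul_of_nonneg_right htot (by positivity)
        _ ≤ (p : ℝ) ^ L * (2 * p) ^ B * (1 / 2) + (p : ℝ) ^ L * (2 * p) ^ B * (1 / 2) := by
              rw [add_mul]
              exact add_le_add hin hout
        _ = (p : ℝ) ^ L * (2 * p) ^ B := by ring

end Pool.Agent.TH463.UP
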