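import Pool.Agent.TH463.UP.Union

/-!
The exceptional multipliers.
-/

set_option autoImplicit false

open Finset Filter Topology

namespace Pool.Agent.TH463.UP

open Pool.Agent.H769R3 (X)

/-- the weight -/
noncomputable def th (δ : ℝ) : ℝ := Real.exp (-(δ ^ 2 / 64))

/-- the inverse of the admissible proportion of bad times -/
noncomputable def MM (p : ℕ) (δ : ℝ) : ℕ := ⌈64 * Real.log (2 * p) / δ ^ 2⌉₊ + 1

lemma th_pos (δ : ℝ) : 0 < th δ := Real.exp_pos _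

lemma th_lt_one {δ : ℝ} (hδ : 0 < δ) : th δ < 1 := by
  unfold th
  rw [Real.exp_lt_one_iff]
  have : 0 < δ ^ 2 := by positivity
  linarith

lemma MM_pos (p : ℕ) (δ : ℝ) : 1 ≤ MM p δ := Nat.succ_pos _

lemma MM_le (p : ℕ) {δ : ℝ} (hδ : 0 < δ) : Real.log (2 * p) ≤ δ ^ 2 / 64 * MM p δ := by
  have h1 : 64 * Real.log (2 * p) / δ ^ 2 ≤ MM p δ := by
    unfold MM
    push_cast
    have := Nat.le_ceil (64 * Real.log (2 * p) / δ ^ 2)
    linarith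
  have h2 : 0 < δ ^ 2 := by positivity
  rw [div_le_iff₀ h2] at h1
  linarith

/-- the class of points -/
def GG (p : ℕ) (δ : ℝ) (C : Finset (ℕ × ℕ)) (β : ℕ) : Set X :=
  {x | bad p (Un p C) (2 * β + 2) x ≤ (2 * β + 2) / MM p δ}

lemma cnt_GG {p : ℕ} (hp : 2 ≤ p) {δ : ℝ} (hδ : 0 < δ) {L : ℕ} {C : Finset (ℕ × ℕ)} (hC : C ∈ Fam p (th δ) L) (β : ℕ) :
    (cnt p (2 * β + 2) (GG p δ C β) : ℝ) ≤
      ((p : ℝ) ^ L * Real.exp (δ ^ 2 / 16)) * Real.exp ((δ ^ 2 / 16) * β) := by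
  have h1 := count hp (th_pos δ) (th_lt_one hδ) hC (2 * β + 2) ((2 * β + 2) / MM p δ)
  set R := 2 * β + 2 with hR
  set B := R / MM p δ with hB
  have hRR : (R : ℝ) = 2 * β + 2 := by rw [hR]; push_cast; ring
  have hM0 : (0 : ℝ) < MM p δ := by exact_mod_cast MM_pos p δ
  have hp2 : (0 : ℝ) < 2 * p := by
    have : 0 < 2 * p := by omega
    exact_mod_cast this
  have h2 : (2 * (p : ℝ)) ^ B ≤ Real.exp (δ ^ 2 / 64 * R) := by
    have e : (2 * (p : ℝ)) ^ B = Real.exp (B * Real.log (2 * p)) := by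
      rw [Real.exp_nat_mul, Real.exp_log hp2]
    rw [e]
    apply Real.exp_le_exp.2
    have h3 : (B : ℝ) * MM p δ ≤ R := by
      have := Nat.div_mul_le_self R (MM p δ)
      exact_mod_cast this
    have h4 := MM_le p hδ
    have hB0 : (0 : ℝ) ≤ B := Nat.cast_nonneg B
    calc (B : ℝ) * Real.log (2 * p) ≤ B * (δ ^ 2 / 64 * MM p δ) := mul_le_mul_of_nonneg_left h4 hB0
      _ = δ ^ 2 / 64 * (B * MM p δ) := by ring
      _ ≤ δ ^ 2 / 64 * R := mul_le_mul_of_nonneg_left h3 (by positivity)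
  have h5 : th δ ^ R * Real.exp (δ ^ 2 / 64 * R) = 1 := by
    unfold th
    rw [← Real.exp_nat_mul, ← Real.exp_add, ← Real.exp_zero]
    congr 1
    ring
  have hE : 0 < Real.exp (δ ^ 2 / 64 * R) := Real.exp_pos _
  have hcnt0 : (0 : ℝ) ≤ cnt p R (GG p δ C β) := Nat.cast_nonneg _
  have h6 : (cnt p R (GG p δ C β) : ℝ) ≤ (p : ℝ) ^ L * (2 * p) ^ B * Real.exp (δ ^ 2 / 64 * R) := by
    calc (cnt p R (GG p δ C β) : ℝ) = (cnt p R (GG p δ C β) : ℝ) * (th δ ^ R * Real.exp (δ ^ 2 / 64 * R)) := by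
          rw [h5, mul_one]
      _ = ((cnt p R (GG p δ C β) : ℝ) * th δ ^ R) * Real.exp (δ ^ 2 / 64 * R) := by ring
      _ ≤ ((p : ℝ) ^ L * (2 * p) ^ B) * Real.exp (δ ^ 2 / 64 * R) := mul_le_mul_of_nonneg_right h1 hE.le
  refine h6.trans ?_
  calc (p : ℝ) ^ L * (2 * p) ^ B * Real.exp (δ ^ 2 / 64 * R) ≤
        (p : ℝ) ^ L * Real.exp (δ ^ 2 / 64 * R) * Real.exp (δ ^ 2 / 64 * R) := by
          apply mul_le_mul_of_nonneg_right _ hE.le
          exact mul_le_mul_of_nonneg_left h2 (by positivity)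
    _ = ((p : ℝ) ^ L * Real.exp (δ ^ 2 / 16)) * Real.exp ((δ ^ 2 / 16) * β) := by
          rw [mul_assoc, mul_assoc, ← Real.exp_add, ← Real.exp_add]
          congr 2
          rw [hRR]
          ring

/-- the exceptional multipliers for the bound `N` -/
def Exc (p : ℕ) (δ : ℝ) (L β₀ N : ℕ) : Set ℕ :=
  {h | ∃ C ∈ Fam p (th δ) L, ∃ β, β₀ ≤ β ∧ ∃ ρ : ℚ, Appr p (GG p δ C β) β N ρ ∧ BadPair p δ β h ρ}

open Classical in
lemma exc_bound {p : ℕ} (hp : 2 ≤ p) {δ : ℝ} (hδ : 0 < δ) (L : ℕ) {η : ℝ} (hη : 0 < η) :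
    ∃ β₀ : ℕ, 1 ≤ β₀ ∧ 2 * Real.pi ≤ δ * β₀ ∧ ∀ N : ℕ,
      (((range N).filter (fun h => h ∈ Exc p δ L β₀ N)).card : ℝ) ≤ η * N := by
  set θ := Real.exp (-(δ ^ 2 / 16)) with hθ
  have hθ0 : 0 < θ := Real.exp_pos _
  have hθ1 : θ < 1 := by
    rw [hθ, Real.exp_lt_one_iff]
    have : 0 < δ ^ 2 := by positivity
    linarith
  set C0 : ℝ := (p : ℝ) ^ L * Real.exp (δ ^ 2 / 16) with hC0
  have hC00 : 0 ≤ C0 := by positivity
  set F : ℝ := ((Fam p (th δ) L).card : ℝ) with hF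
  obtain ⟨β₀, hβ1, hβ2, hβ3⟩ : ∃ β₀ : ℕ, 1 ≤ β₀ ∧ 2 * Real.pi ≤ δ * β₀ ∧
      F * (8 * cP p * C0 * (θ ^ β₀ / (1 - θ))) ≤ η := by
    have t1 : Tendsto (fun b : ℕ => F * (8 * cP p * C0 * (θ ^ b / (1 - θ)))) atTop
        (𝓝 (F * (8 * cP p * C0 * (0 / (1 - θ))))) :=
      (((tendsto_pow_atTop_nhds_zero_of_lt_one hθ0.le hθ1).div_const _).const_mul _).const_mul _
    rw [zero_div, mul_zero, mul_zero] at t1
    have e1 := t1.eventually (gt_mem_nhds hη)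
    have t2 : Tendsto (fun b : ℕ => δ * (b : ℝ)) atTop atTop :=
      tendsto_natCast_atTop_atTop.const_mul_atTop hδ
    have e2 := t2.eventually_ge_atTop (2 * Real.pi)
    obtain ⟨b, h1, h2, h3⟩ := (e1.and (e2.and (eventually_ge_atTop 1))).exists
    exact ⟨b, h3, h2, h1.le⟩
  refine ⟨β₀, hβ1, hβ2, fun N => ?_⟩
  have hsub : (range N).filter (fun h => h ∈ Exc p δ L β₀ N) ⊆ (Fam p (th δ) L).biUnion fun C =>
      (range N).filter (fun h => ∃ β, β₀ ≤ β ∧ ∃ ρ : ℚ, Appr p (GG p δ C β) β N ρ ∧ BadPair p δ β h ρ) := by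
    intro h hh
    rw [mem_filter] at hh
    obtain ⟨h1, C, hC, h2⟩ := hh
    rw [mem_biUnion]
    exact ⟨C, hC, mem_filter.2 ⟨h1, h2⟩⟩
  have h1 : (((range N).filter (fun h => h ∈ Exc p δ L β₀ N)).card : ℝ) ≤ ∑ C ∈ Fam p (th δ) L,
      (((range N).filter (fun h => ∃ β, β₀ ≤ β ∧ ∃ ρ : ℚ, Appr p (GG p δ C β) β N ρ ∧
        BadPair p δ β h ρ)).card : ℝ) := by
    exact_mod_cast (card_le_card hsub).trans card_biUnion_le
  have h2 : ∀ C ∈ Fam p (th δ) L, (((range N).filter (fun h => ∃ β, β₀ ≤ β ∧ ∃ ρ : ℚ,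
      Appr p (GG p δ C β) β N ρ ∧ BadPair p δ β h ρ)).card : ℝ) ≤ N * (8 * cP p * C0 * (θ ^ β₀ / (1 - θ))) :=
    fun C hC => union_bound hp δ hδ (GG p δ C) C0 hC00 (cnt_GG hp hδ hC) β₀ N
  refine h1.trans ((sum_le_sum h2).trans ?_)
  rw [sum_const, nsmul_eq_mul]
  have hN0 : (0 : ℝ) ≤ N := Nat.cast_nonneg N
  calc F * (N * (8 * cP p * C0 * (θ ^ β₀ / (1 - θ)))) = (F * (8 * cP p * C0 * (θ ^ β₀ / (1 - θ)))) * N := by ring
    _ ≤ η * N := mul_le_mul_of_nonneg_right hβ3 hN0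

/-- the power of two following `h` -/
def nx (h : ℕ) : ℕ := 2 ^ (Nat.log 2 h + 1)

lemma lt_nx (h : ℕ) : h < nx h := Nat.lt_pow_succ_log_self (by norm_num) h

/-- the exceptional multipliers -/
def ES (p : ℕ) (δ : ℝ) (L β₀ : ℕ) : Set ℕ := {h | h ∈ Exc p δ L β₀ (nx h)}

open Classical in
lemma es_bound {p : ℕ} {δ : ℝ} {L β₀ : ℕ} {η : ℝ} (hη : 0 < η)
    (H : ∀ N : ℕ, (((range N).filter (fun h => h ∈ Exc p δ L β₀ N)).card : ℝ) ≤ η * N) (N : ℕ) :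
    (((range N).filter (fun h => h ∈ ES p δ L β₀)).card : ℝ) ≤ 4 * η * N := by
  rcases Nat.eq_zero_or_pos N with hN | hN
  · rw [hN]
    simp
  have hsub : (range N).filter (fun h => h ∈ ES p δ L β₀) ⊆ (range (Nat.log 2 N + 1)).biUnion fun i =>
      (range (2 ^ (i + 1))).filter (fun h => h ∈ Exc p δ L β₀ (2 ^ (i + 1))) := by
    intro h hh
    rw [mem_filter, mem_range] at hh
    rw [mem_biUnion]
    refine ⟨Nat.log 2 h, ?_, ?_⟩
    · rw [mem_range]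
      have := Nat.log_mono_right (b := 2) hh.1.le
      omega
    · rw [mem_filter, mem_range]
      exact ⟨lt_nx h, hh.2⟩
  have h1 : (((range N).filter (fun h => h ∈ ES p δ L β₀)).card : ℝ) ≤
      ∑ i ∈ range (Nat.log 2 N + 1),
        (((range (2 ^ (i + 1))).filter (fun h => h ∈ Exc p δ L β₀ (2 ^ (i + 1)))).card : ℝ) := by
    exact_mod_cast (card_le_card hsub).trans card_biUnion_le
  have h2 : ∀ i ∈ range (Nat.log 2 N + 1),
      (((range (2 ^ (i + 1))).filter (fun h => h ∈ Exc p δ L β₀ (2 ^ (i + 1)))).card : ℝ) ≤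
        (2 * η) * 2 ^ i := by
    intro i _
    refine (H _).trans (le_of_eq ?_)
    push_cast
    rw [pow_succ]
    ring
  refine h1.trans ((sum_le_sum h2).trans ?_)
  rw [← mul_sum]
  have h3 : ∑ i ∈ range (Nat.log 2 N + 1), (2 : ℝ) ^ i ≤ 2 * N := by
    rw [geom_sum_eq (by norm_num)]
    have h4 : (2 : ℝ) ^ (Nat.log 2 N) ≤ N := by exact_mod_cast Nat.pow_log_le_self 2 hN.ne'
    rw [pow_succ]
    norm_num
    linarith
  calc 2 * η * ∑ i ∈ range (Nat.log 2 N + 1), (2 : ℝ) ^ i ≤ 2 * η * (2 * N) :=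
        mul_le_mul_of_nonneg_left h3 (by positivity)
    _ = 4 * η * N := by ring

end Pool.Agent.TH463.UP
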