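import Pool.Agent.TH463.UP.Exc
import Pool.Agent.H769R3.Weyl

/-!
The Fourier coefficient of an invariant measure at a frequency which is not exceptional.
-/

set_option autoImplicit false

open Finset Filter Topology MeasureTheory

namespace Pool.Agent.TH463.UP

open Pool.Agent.H769R3 (X rep rep_nonneg rep_lt_one coe_rep rep_coe measurable_rep exists_lift
  norm_coe_le coe_int_zero fourier_norm fourier_lip)

/-- points of small order -/
def Tor (Q : ℕ) : Set X := {y | ∃ q : ℕ, 1 ≤ q ∧ q < Q ∧ q • y = 0}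

lemma tor_finite (Q : ℕ) : (Tor Q).Finite := by
  have : Tor Q ⊆ ⋃ q ∈ Finset.Ico 1 Q, {y : X | q • y = 0} := by
    rintro y ⟨q, h1, h2, h3⟩
    simp only [Set.mem_iUnion]
    exact ⟨q, Finset.mem_Ico.2 ⟨h1, h2⟩, h3⟩
  refine Set.Finite.subset ?_ this
  refine Set.Finite.biUnion (Finset.finite_toSet _) fun q hq => ?_
  exact AddCircle.finite_torsion _ (Finset.mem_Ico.1 hq).1

/-- the neighbourhood of the points of small order -/
def Near (Q N : ℕ) : Set X := Metric.cthickening (1 / ((N : ℝ) + 1)) (Tor Q)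

open Classical in
/-- the bound for the wasted times -/
noncomputable def gg (p : ℕ) (δ : ℝ) (C : Finset (ℕ × ℕ)) (Q N : ℕ) (x : X) : ℝ :=
  MM p δ * (if x ∉ Un p C then 1 else 0) + if x ∈ Near Q N then 1 else 0

lemma gg_nonneg (p : ℕ) (δ : ℝ) (C : Finset (ℕ × ℕ)) (Q N : ℕ) (x : X) : 0 ≤ gg p δ C Q N x := by
  unfold gg
  have : (0 : ℝ) ≤ MM p δ := Nat.cast_nonneg _
  split_ifs <;> simp [this] <;> linarith

lemma gg_le (p : ℕ) (δ : ℝ) (C : Finset (ℕ × ℕ)) (Q N : ℕ) (x : X) :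
    gg p δ C Q N x ≤ MM p δ + 1 := by
  unfold gg
  have : (0 : ℝ) ≤ MM p δ := Nat.cast_nonneg _
  split_ifs <;> simp <;> linarith

open Classical in
lemma pointwise {p : ℕ} (hp : 2 ≤ p) {δ : ℝ} (hδ : 0 < δ) {L β₀ N h : ℕ} {C : Finset (ℕ × ℕ)}
    (hC : C ∈ Fam p (th δ) L)
    (hβ₀ : 1 ≤ β₀) (hδβ : 2 * Real.pi ≤ δ * β₀) (hN : h < N) (hgood : h ∉ Exc p δ L β₀ N) (x : X) :
    ∃ τ : ℕ, 1 ≤ τ ∧ τ ≤ 2 * N + 2 ∧ ‖∑ j ∈ range τ, (fourier (h : ℤ) ((p ^ j : ℕ) • x) : ℂ)‖ ≤
      2 * δ * τ + ∑ j ∈ range τ, gg p δ C (p ^ β₀) N ((p ^ j : ℕ) • x) := by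
  have hN0 : 0 < N := by omega
  have hp1 : 1 < p := by omega
  have hpR : (2 : ℝ) ≤ p := by exact_mod_cast hp
  have hM : 1 ≤ MM p δ := MM_pos p δ
  have hM0 : (1 : ℝ) ≤ MM p δ := by exact_mod_cast hM
  have hNR : (0 : ℝ) < (N : ℝ) + 1 := by positivity
  obtain ⟨ρ, hρ1, hρ2⟩ := Real.exists_rat_abs_sub_le_and_den_le (rep x) hN0
  have hden : (1 : ℝ) ≤ ρ.den := by exact_mod_cast ρ.den_pos
  have hclose : ‖x - ((ρ : ℝ) : X)‖ ≤ |rep x - ρ| := by
    have e : x - ((ρ : ℝ) : X) = ((rep x - ρ : ℝ) : X) := by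
      rw [AddCircle.coe_sub, coe_rep]
    rw [e]
    exact norm_coe_le _
  by_cases hsmall : ρ.den < p ^ β₀
  · -- small denominators
    have hx : x ∈ Near (p ^ β₀) N := by
      unfold Near
      refine Metric.mem_cthickening_of_dist_le x ((ρ : ℝ) : X) _ _ ?_ ?_
      · refine ⟨ρ.den, ρ.den_pos, hsmall, ?_⟩
        rw [← AddCircle.coe_nsmul, nsmul_eq_mul]
        have e : (ρ.den : ℝ) * (ρ : ℝ) = ((ρ.num : ℤ) : ℝ) := by
          have := Rat.den_mul_eq_num ρ
          exact_mod_cast this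
        rw [e]
        exact coe_int_zero _
      · rw [dist_eq_norm]
        refine hclose.trans (hρ1.trans ?_)
        apply one_div_le_one_div_of_le hNR
        nlinarith
    refine ⟨1, le_rfl, by omega, ?_⟩
    rw [sum_range_one, sum_range_one, pow_zero, one_smul, fourier_norm]
    unfold gg
    rw [if_pos hx]
    have h1 : (0 : ℝ) ≤ MM p δ * (if x ∉ Un p C then 1 else 0) := by
      split_ifs <;> simp
    push_cast
    linarith
  · rw [not_lt] at hsmall
    set β := Nat.log p ρ.den with hβ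
    have hb1 : p ^ β ≤ ρ.den := Nat.pow_log_le_self p ρ.den_nz
    have hb2 : ρ.den < p ^ (β + 1) := Nat.lt_pow_succ_log_self hp1 _
    have hb3 : β₀ ≤ β := (Nat.le_log_iff_pow_le hp1 ρ.den_nz).2 hsmall
    have hb4 : β < N := (Nat.lt_pow_self hp1).trans_le (hb1.trans hρ2)
    by_cases hG : x ∈ GG p δ C β
    · -- a good point
      have happ : Appr p (GG p δ C β) β N ρ := ⟨hb1, hb2, hρ2, x, hG, hρ1⟩
      have hnb : ¬ BadPair p δ β h ρ := fun hbp => hgood ⟨C, hC, β, hb3, ρ, happ, hbp⟩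
      unfold BadPair at hnb
      rw [not_lt] at hnb
      refine ⟨β, by omega, by omega, ?_⟩
      have hg0 : 0 ≤ ∑ j ∈ range β, gg p δ C (p ^ β₀) N ((p ^ j : ℕ) • x) :=
        sum_nonneg fun j _ => gg_nonneg _ _ _ _ _ _
      have hdiff : ‖∑ j ∈ range β, (fourier (h : ℤ) ((p ^ j : ℕ) • x) : ℂ) -
          ∑ j ∈ range β, (fourier (h : ℤ) ((p ^ j : ℕ) • ((ρ : ℝ) : X)) : ℂ)‖ ≤ 2 * Real.pi := by
        rw [← sum_sub_distrib]
        refine (norm_sum_le _ _).trans ?_
        have hterm : ∀ j ∈ range β, ‖(fourier (h : ℤ) ((p ^ j : ℕ) • x) : ℂ) -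
            fourier (h : ℤ) ((p ^ j : ℕ) • ((ρ : ℝ) : X))‖ ≤
            (2 * Real.pi * h * |rep x - ρ|) * (p : ℝ) ^ j := by
          intro j _
          refine (fourier_lip _ _ _).trans ?_
          rw [← smul_sub]
          have h1 : ‖(p ^ j : ℕ) • (x - ((ρ : ℝ) : X))‖ ≤ (p : ℝ) ^ j * |rep x - ρ| := by
            refine norm_nsmul_le.trans ?_
            push_cast
            exact mul_le_mul_of_nonneg_left hclose (by positivity)
          have h2 : |((h : ℤ) : ℝ)| = h := by simp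
          rw [h2]
          calc 2 * Real.pi * h * ‖(p ^ j : ℕ) • (x - ((ρ : ℝ) : X))‖ ≤
                2 * Real.pi * h * ((p : ℝ) ^ j * |rep x - ρ|) :=
                mul_le_mul_of_nonneg_left h1 (by positivity)
            _ = _ := by ring
        refine (sum_le_sum hterm).trans ?_
        rw [← mul_sum]
        have h3 : ∑ j ∈ range β, (p : ℝ) ^ j ≤ (p : ℝ) ^ β := by
          rw [geom_sum_eq (by linarith)]
          rw [div_le_iff₀ (by linarith)]
          have : (0 : ℝ) < (p : ℝ) ^ β := by positivity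
          nlinarith
        have h4 : (h : ℝ) ≤ N + 1 := by
          have : (h : ℝ) < N := by exact_mod_cast hN
          linarith
        have h5 : (p : ℝ) ^ β ≤ ρ.den := by exact_mod_cast hb1
        calc 2 * Real.pi * h * |rep x - ρ| * ∑ j ∈ range β, (p : ℝ) ^ j ≤
              2 * Real.pi * h * |rep x - ρ| * (p : ℝ) ^ β :=
              mul_le_mul_of_nonneg_left h3 (by positivity)
          _ ≤ 2 * Real.pi * (N + 1) * (1 / ((N + 1) * ρ.den)) * ρ.den := by
            apply mul_le_mul _ h5 (by positivity) (by positivity)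
            apply mul_le_mul _ hρ1 (abs_nonneg _) (by positivity)
            exact mul_le_mul_of_nonneg_left h4 (by positivity)
          _ = 2 * Real.pi := by
            field_simp
      have htri : ‖∑ j ∈ range β, (fourier (h : ℤ) ((p ^ j : ℕ) • x) : ℂ)‖ ≤
          ‖∑ j ∈ range β, (fourier (h : ℤ) ((p ^ j : ℕ) • x) : ℂ) -
          ∑ j ∈ range β, (fourier (h : ℤ) ((p ^ j : ℕ) • ((ρ : ℝ) : X)) : ℂ)‖ +
          ‖∑ j ∈ range β, (fourier (h : ℤ) ((p ^ j : ℕ) • ((ρ : ℝ) : X)) : ℂ)‖ := by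
        refine le_trans (le_of_eq ?_) (norm_add_le _ _)
        congr 1
        ring
      have hβR : (β₀ : ℝ) ≤ β := by exact_mod_cast hb3
      have h6 : δ * β₀ ≤ δ * β := mul_le_mul_of_nonneg_left hβR hδ.le
      linarith
    · -- not a good point
      have hG' : (2 * β + 2) / MM p δ < bad p (Un p C) (2 * β + 2) x := by
        unfold GG at hG
        simpa using hG
      refine ⟨2 * β + 2, by omega, by omega, ?_⟩
      set R := 2 * β + 2 with hR
      have h1 : ‖∑ j ∈ range R, (fourier (h : ℤ) ((p ^ j : ℕ) • x) : ℂ)‖ ≤ R := by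
        refine (norm_sum_le _ _).trans ?_
        refine (sum_le_sum (fun j _ => (fourier_norm _ _).le)).trans ?_
        simp
      have h2 : (R : ℝ) ≤ MM p δ * bad p (Un p C) R x := by
        have : R ≤ MM p δ * bad p (Un p C) R x := by
          have h3 : R < (R / MM p δ + 1) * MM p δ := by
            have := Nat.lt_div_mul_add (a := R) (b := MM p δ) (by omega)
            rw [add_mul, one_mul]
            exact this
          have h4 : (R / MM p δ + 1) * MM p δ ≤ bad p (Un p C) R x * MM p δ :=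
            Nat.mul_le_mul_right _ hG'
          rw [mul_comm (MM p δ)]
          omega
        exact_mod_cast this
      have h3 : (MM p δ : ℝ) * bad p (Un p C) R x ≤
          ∑ j ∈ range R, gg p δ C (p ^ β₀) N ((p ^ j : ℕ) • x) := by
        rw [bad_eq_sum]
        push_cast
        rw [mul_sum]
        apply sum_le_sum
        intro j _
        unfold gg
        have : (0 : ℝ) ≤ if (p ^ j : ℕ) • x ∈ Near (p ^ β₀) N then 1 else 0 := by
          split_ifs <;> norm_num
        linarith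
      have h4 : 0 ≤ 2 * δ * (R : ℝ) := by positivity
      linarith

lemma measurable_D (p n : ℕ) : Measurable (D p n) := by
  unfold D
  exact Nat.measurable_floor.comp (measurable_rep.const_mul _)

lemma measurable_Un (p : ℕ) (C : Finset (ℕ × ℕ)) : MeasurableSet (Un p C) := by
  have : Un p C = ⋃ c ∈ C, {x | D p c.1 x = c.2} := by
    ext x
    simp [Un]
  rw [this]
  exact Finset.measurableSet_biUnion _ fun c _ => measurable_D p c.1 (measurableSet_singleton c.2)

lemma measurable_gg (p : ℕ) (δ : ℝ) (C : Finset (ℕ × ℕ)) (Q N : ℕ) :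
    Measurable (gg p δ C Q N) := by
  classical
  unfold gg
  refine Measurable.add (Measurable.const_mul ?_ _) ?_
  · exact Measurable.ite (measurable_Un p C).compl measurable_const measurable_const
  · exact Measurable.ite (Metric.isClosed_cthickening).measurableSet measurable_const measurable_const

lemma integral_gg {ν : Measure X} [IsFiniteMeasure ν] (p : ℕ) (δ : ℝ) (C : Finset (ℕ × ℕ))
    (Q N : ℕ) :
    ∫ x, gg p δ C Q N x ∂ν = MM p δ * ν.real (Un p C)ᶜ + ν.real (Near Q N) := by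
  classical
  have e1 : ∀ x, (if x ∉ Un p C then (1 : ℝ) else 0) =
      (Un p C)ᶜ.indicator (fun _ => (1 : ℝ)) x := by
    intro x
    by_cases h : x ∈ Un p C
    · simp [h]
    · simp [h]
  have e2 : ∀ x, (if x ∈ Near Q N then (1 : ℝ) else 0) = (Near Q N).indicator (fun _ => (1 : ℝ)) x := by
    intro x
    by_cases h : x ∈ Near Q N
    · simp [h]
    · simp [h]
  have hm1 := (measurable_Un p C).compl
  have hm2 : MeasurableSet (Near Q N) := (Metric.isClosed_cthickening).measurableSet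
  unfold gg
  simp_rw [e1, e2]
  rw [integral_add, integral_const_mul, integral_indicator_const _ hm1,
    integral_indicator_const _ hm2]
  · simp
  · exact ((integrable_const _).indicator hm1).const_mul _
  · exact (integrable_const _).indicator hm2

lemma mp_pow {p : ℕ} {μ : Measure X} (hμ : μ.map (fun x : X => (p : ℕ) • x) = μ) (j : ℕ) :
    MeasurePreserving (fun x : X => (p ^ j : ℕ) • x) μ μ := by
  induction j with
  | zero =>
    simp only [pow_zero, one_smul]
    exact MeasurePreserving.id μ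
  | succ j ih =>
    have h2 : MeasurePreserving (fun x : X => (p : ℕ) • x) μ μ := ⟨by fun_prop, hμ⟩
    have h3 := h2.comp ih
    have e : (fun x : X => (p ^ (j + 1) : ℕ) • x) =
        (fun x : X => (p : ℕ) • x) ∘ (fun x : X => (p ^ j : ℕ) • x) := by
      funext x
      simp only [Function.comp]
      rw [← mul_smul, pow_succ, mul_comm]
    rw [e]
    exact h3

lemma stop_pointwise {p : ℕ} (f : X → ℂ) (hf : ∀ x, ‖f x‖ ≤ 1) (g : X → ℝ) (hg : ∀ x, 0 ≤ g x)
    {δ : ℝ} (hδ : 0 ≤ δ) (L : ℕ)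
    (h : ∀ x, ∃ τ : ℕ, 1 ≤ τ ∧ τ ≤ L ∧ ‖∑ j ∈ range τ, f ((p ^ j : ℕ) • x)‖ ≤
      δ * τ + ∑ j ∈ range τ, g ((p ^ j : ℕ) • x)) :
    ∀ (M : ℕ) (x : X), ‖∑ j ∈ range M, f ((p ^ j : ℕ) • x)‖ ≤
      δ * M + ∑ j ∈ range M, g ((p ^ j : ℕ) • x) + L := by
  intro M
  induction M using Nat.strong_induction_on with
  | _ M ih =>
    intro x
    by_cases hM : M ≤ L
    · have h1 : ‖∑ j ∈ range M, f ((p ^ j : ℕ) • x)‖ ≤ M := by
        refine (norm_sum_le _ _).trans ?_
        refine (sum_le_sum (fun j _ => hf _)).trans ?_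
        simp
      have h2 : (M : ℝ) ≤ L := by exact_mod_cast hM
      have h3 : 0 ≤ ∑ j ∈ range M, g ((p ^ j : ℕ) • x) := sum_nonneg fun j _ => hg _
      have h4 : 0 ≤ δ * M := by positivity
      linarith
    · obtain ⟨τ, h1, h2, h3⟩ := h x
      have hM' : M = τ + (M - τ) := by omega
      have h4 := ih (M - τ) (by omega) ((p ^ τ : ℕ) • x)
      have e : ∀ {E : Type} [AddCommMonoid E] (F : X → E),
          ∑ j ∈ range M, F ((p ^ j : ℕ) • x) = ∑ j ∈ range τ, F ((p ^ j : ℕ) • x) +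
            ∑ j ∈ range (M - τ), F ((p ^ j : ℕ) • ((p ^ τ : ℕ) • x)) := by
        intro E _ F
        conv_lhs => rw [hM', sum_range_add]
        congr 1
        apply sum_congr rfl
        intro j _
        rw [← mul_smul, ← pow_add, add_comm τ j]
      rw [e f, e g]
      refine (norm_add_le _ _).trans ?_
      have h5 : (M : ℝ) = τ + ((M - τ : ℕ) : ℝ) := by exact_mod_cast hM'
      rw [h5]
      linarith

/-- the stopping time argument for finite measures and measurable functions -/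
lemma stop' {p : ℕ} {ν : Measure X} [IsFiniteMeasure ν]
    (hν : ν.map (fun x : X => (p : ℕ) • x) = ν) (f : C(X, ℂ)) (hf : ∀ x, ‖f x‖ ≤ 1)
    (g : X → ℝ) (hgm : Measurable g) (hg : ∀ x, 0 ≤ g x) {K : ℝ} (hgK : ∀ x, g x ≤ K)
    {δ : ℝ} (hδ : 0 ≤ δ) (L : ℕ)
    (h : ∀ x, ∃ τ : ℕ, 1 ≤ τ ∧ τ ≤ L ∧ ‖∑ j ∈ range τ, f ((p ^ j : ℕ) • x)‖ ≤
      δ * τ + ∑ j ∈ range τ, g ((p ^ j : ℕ) • x)) :
    ‖∫ x, f x ∂ν‖ ≤ δ * ν.real Set.univ + ∫ x, g x ∂ν := by
  have hpt := stop_pointwise f hf g hg hδ L h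
  have hsm : ∀ j : ℕ, Measurable (fun x : X => (p ^ j : ℕ) • x) := fun j => by fun_prop
  have hfi : ∀ j : ℕ, Integrable (fun x => f ((p ^ j : ℕ) • x)) ν := by
    intro j
    exact (f.continuous.comp (by fun_prop)).integrable_of_hasCompactSupport
      (HasCompactSupport.of_compactSpace _)
  have hgi : ∀ j : ℕ, Integrable (fun x => g ((p ^ j : ℕ) • x)) ν := by
    intro j
    refine Integrable.of_bound (hgm.comp (hsm j)).aestronglyMeasurable K (Eventually.of_forall ?_)
    intro x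
    rw [Real.norm_eq_abs, abs_of_nonneg (hg _)]
    exact hgK _
  have hf1 : ∀ j : ℕ, ∫ x, f ((p ^ j : ℕ) • x) ∂ν = ∫ x, f x ∂ν := by
    intro j
    have h1 := (mp_pow hν j).map_eq
    conv_rhs => rw [← h1]
    rw [integral_map (by fun_prop) f.continuous.aestronglyMeasurable]
  have hg1 : ∀ j : ℕ, ∫ x, g ((p ^ j : ℕ) • x) ∂ν = ∫ x, g x ∂ν := by
    intro j
    have h1 := (mp_pow hν j).map_eq
    conv_rhs => rw [← h1]
    rw [integral_map (by fun_prop) hgm.aestronglyMeasurable]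
  set m : ℝ := ν.real Set.univ with hm
  have hm0 : 0 ≤ m := measureReal_nonneg
  have key : ∀ M : ℕ, (M : ℝ) * ‖∫ x, f x ∂ν‖ ≤ δ * M * m + M * ∫ x, g x ∂ν + L * m := by
    intro M
    have h1 : ∫ x, ∑ j ∈ range M, f ((p ^ j : ℕ) • x) ∂ν = (M : ℂ) * ∫ x, f x ∂ν := by
      rw [integral_finsetSum _ (fun j _ => hfi j)]
      rw [sum_congr rfl (fun j _ => hf1 j)]
      simp
    have h2 : ∫ x, (δ * M + ∑ j ∈ range M, g ((p ^ j : ℕ) • x) + L) ∂ν =
        δ * M * m + M * ∫ x, g x ∂ν + L * m := by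
      have hsum : Integrable (fun x => ∑ j ∈ range M, g ((p ^ j : ℕ) • x)) ν :=
        integrable_finsetSum _ (fun j _ => hgi j)
      have hA : Integrable (fun x => δ * M + ∑ j ∈ range M, g ((p ^ j : ℕ) • x)) ν :=
        (integrable_const _).add hsum
      rw [integral_add hA (integrable_const _),
        integral_add (integrable_const _) hsum, integral_finsetSum _ (fun j _ => hgi j),
        sum_congr rfl (fun j _ => hg1 j)]
      simp only [integral_const, smul_eq_mul, sum_const, card_range, nsmul_eq_mul]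
      rw [← hm]
      ring
    have h3 : (M : ℝ) * ‖∫ x, f x ∂ν‖ = ‖∫ x, ∑ j ∈ range M, f ((p ^ j : ℕ) • x) ∂ν‖ := by
      rw [h1, norm_mul]
      simp
    rw [h3, ← h2]
    refine (norm_integral_le_integral_norm _).trans ?_
    apply integral_mono
    · exact (integrable_finsetSum _ (fun j _ => hfi j)).norm
    · exact ((integrable_const _).add (integrable_finsetSum _ (fun j _ => hgi j))).add
        (integrable_const _)
    · intro x
      exact hpt M x
  -- let M tend to infinity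
  by_contra hcon
  rw [not_le] at hcon
  set a := ‖∫ x, f x ∂ν‖ - (δ * m + ∫ x, g x ∂ν) with ha
  have ha0 : 0 < a := by linarith
  obtain ⟨M, hM⟩ := exists_nat_gt ((L : ℝ) * m / a)
  have h1 := key M
  rw [div_lt_iff₀ ha0] at hM
  have : (M : ℝ) * a ≤ L * m := by
    rw [ha]
    linarith
  linarith

/-- **The Fourier coefficient at a frequency which is not exceptional.** -/
theorem coeff {p : ℕ} (hp : 2 ≤ p) {δ : ℝ} (hδ : 0 < δ) {L β₀ h : ℕ} {C : Finset (ℕ × ℕ)}
    (hC : C ∈ Fam p (th δ) L)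
    (hβ₀ : 1 ≤ β₀) (hδβ : 2 * Real.pi ≤ δ * β₀) (hgood : h ∉ ES p δ L β₀) {ν : Measure X}
    [IsFiniteMeasure ν] (hν : ν.map (fun x : X => (p : ℕ) • x) = ν) :
    ‖∫ x, (fourier (h : ℤ) x : ℂ) ∂ν‖ ≤ 2 * δ * ν.real Set.univ + MM p δ * ν.real (Un p C)ᶜ +
      ν.real (Near (p ^ β₀) (nx h)) := by
  have h1 := stop' hν (fourier (h : ℤ)) (fun x => (fourier_norm _ x).le) (gg p δ C (p ^ β₀) (nx h))
    (measurable_gg _ _ _ _ _) (gg_nonneg _ _ _ _ _) (gg_le _ _ _ _ _) (δ := 2 * δ) (by positivity)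
    (2 * nx h + 2) (fun x => pointwise hp hδ hC hβ₀ hδβ (lt_nx h) hgood x)
  rw [integral_gg] at h1
  linarith

end Pool.Agent.TH463.UP
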